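import Pool.Agent.W662.CB.Stmts
import Pool.Agent.Helper278.Wot

/-!
# Project CB: averaging over the unitaries of the corner (`S_D2`)
-/

set_option autoImplicit false

open Filter Topology Complex
open scoped InnerProductSpace

namespace Pool.Agent.W917.CB.D2

open Pool.Agent.W662.CB

section wlim

variable {H : Type} [NormedAddCommGroup H] [InnerProductSpace ℂ H] [CompleteSpace H]

/-- weak limits of bounded sequences of operators along an ultrafilter -/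
theorem wlim (G : Ultrafilter ℕ) (C : ℝ) (X : ℕ → H →L[ℂ] H) (hX : ∀ n, ‖X n‖ ≤ C) :
    ∃ Y : H →L[ℂ] H, ‖Y‖ ≤ C ∧ ∀ a b : H, Tendsto (fun n => ⟪a, X n b⟫_ℂ) G (𝓝 ⟪a, Y b⟫_ℂ) := by
  have hC0 : 0 ≤ C := (norm_nonneg _).trans (hX 0)
  rcases hC0.eq_or_lt with h0 | h0
  · refine ⟨0, by simp [hC0], fun a b => ?_⟩
    have : ∀ n, X n = 0 := fun n => by
      have := hX n
      rw [← h0] at this
      exact norm_le_zero_iff.1 this
    simp [this]
  · let S : ℕ → H →WOT[ℂ] H := fun n => ContinuousLinearMapWOT.ofCLM ((C⁻¹ : ℂ) • X n)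
    have hS : ∀ n, ‖(S n).toCLM‖ ≤ 1 := by
      intro n
      show ‖(C⁻¹ : ℂ) • X n‖ ≤ 1
      rw [norm_smul, norm_inv, Complex.norm_real, Real.norm_of_nonneg hC0, inv_mul_le_iff₀ h0]
      simpa using hX n
    have hle : ((G.map S : Ultrafilter (H →WOT[ℂ] H)) : Filter (H →WOT[ℂ] H)) ≤
        𝓟 {T : H →WOT[ℂ] H | ‖T.toCLM‖ ≤ 1} := by
      rw [Ultrafilter.coe_map, le_principal_iff, mem_map]
      exact Filter.univ_mem' hS
    obtain ⟨T, hT1, hT2⟩ := (isCompact_iff_ultrafilter_le_nhds.1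
      Pool.Agent.Helper278.isCompact_wot_ball) _ hle
    refine ⟨(C : ℂ) • T.toCLM, ?_, fun a b => ?_⟩
    · rw [norm_smul, Complex.norm_real, Real.norm_of_nonneg hC0]
      have : ‖T.toCLM‖ ≤ 1 := hT1
      nlinarith
    · rw [ContinuousLinearMapWOT.le_nhds_iff_forall_inner_apply_le_nhds] at hT2
      have h1 : Tendsto (fun n => ⟪a, S n b⟫_ℂ) G (𝓝 ⟪a, T b⟫_ℂ) := by
        have := hT2 b a
        rw [Ultrafilter.coe_map, Filter.map_map] at this
        exact this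
      have h2 := h1.const_mul (C : ℂ)
      have e1 : (C : ℂ) * ⟪a, T b⟫_ℂ = ⟪a, ((C : ℂ) • T.toCLM) b⟫_ℂ := by
        show _ = ⟪a, (C : ℂ) • (T.toCLM b)⟫_ℂ
        rw [inner_smul_right]; rfl
      rw [e1] at h2
      refine h2.congr fun n => ?_
      have e2 : S n b = (C⁻¹ : ℂ) • X n b := rfl
      rw [e2, inner_smul_right, ← mul_assoc, mul_inv_cancel₀ (by exact_mod_cast h0.ne'), one_mul]

/-- von Neumann algebras are closed under weak limits -/
theorem wlim_mem (G : Ultrafilter ℕ) (M : VonNeumannAlgebra H) (X : ℕ → H →L[ℂ] H)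
    (hX : ∀ n, X n ∈ M) (Y : H →L[ℂ] H)
    (hY : ∀ a b : H, Tendsto (fun n => ⟪a, X n b⟫_ℂ) G (𝓝 ⟪a, Y b⟫_ℂ)) : Y ∈ M := by
  have h0 : Y ∈ Set.centralizer (Set.centralizer (M : Set (H →L[ℂ] H))) := by
    rw [Set.mem_centralizer_iff]
    intro m hm
    rw [Set.mem_centralizer_iff] at hm
    ext b
    refine ext_inner_left ℂ fun a => ?_
    have h1 : Tendsto (fun n => ⟪ContinuousLinearMap.adjoint m a, X n b⟫_ℂ) G
        (𝓝 ⟪ContinuousLinearMap.adjoint m a, Y b⟫_ℂ) := hY _ _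
    have h2 : Tendsto (fun n => ⟪a, X n (m b)⟫_ℂ) G (𝓝 ⟪a, Y (m b)⟫_ℂ) := hY _ _
    have h3 : ∀ n, ⟪ContinuousLinearMap.adjoint m a, X n b⟫_ℂ = ⟪a, X n (m b)⟫_ℂ := by
      intro n
      rw [ContinuousLinearMap.adjoint_inner_left]
      have := hm (X n) (hX n)
      have := congrArg (fun Z : H →L[ℂ] H => Z b) this
      simp only [mul_apply_eq_comp] at this
      rw [this]
    simp only [h3] at h1
    have h4 := tendsto_nhds_unique h1 h2
    rw [ContinuousLinearMap.adjoint_inner_left] at h4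
    exact h4
  rw [M.centralizer_centralizer] at h0
  exact h0

end wlim

section corner

variable {K : Type} [NormedAddCommGroup K] [InnerProductSpace ℂ K] [CompleteSpace K]

theorem right_p {p u : K →L[ℂ] K} (hp : p * p = p) (hs : star p = p) (hu : star u * u = p) :
    u * p = u := by
  have h1 : star (u - u * p) * (u - u * p) = 0 := by
    rw [star_sub, star_mul, hs, sub_mul, mul_sub, mul_sub]
    have e1 : star u * (u * p) = p := by rw [← mul_assoc, hu, hp]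
    have e2 : p * star u * u = p := by rw [mul_assoc, hu, hp]
    have e3 : p * star u * (u * p) = p := by rw [mul_assoc, e1, hp]
    rw [hu, e1, e2, e3]
    abel
  have h2 := CStarRing.star_mul_self_eq_zero_iff (u - u * p) |>.1 h1
  exact (sub_eq_zero.1 h2).symm

theorem left_p {p u : K →L[ℂ] K} (hp : p * p = p) (hs : star p = p) (hu : u * star u = p) :
    p * u = u := by
  have h1 := right_p (u := star u) hp hs (by rw [star_star]; exact hu)
  have h2 := congrArg star h1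
  rwa [star_mul, star_star, hs] at h2

theorem norm_iso {p u : K →L[ℂ] K} (hu : star u * u = p) {v : K} (hv : p v = v) :
    ‖u v‖ = ‖v‖ := by
  have h1 : ⟪u v, u v⟫_ℂ = ⟪v, v⟫_ℂ := by
    have h2 : ⟪v, (star u * u) v⟫_ℂ = ⟪u v, u v⟫_ℂ := by
      rw [mul_apply_eq_comp, ContinuousLinearMap.star_eq_adjoint,
        ContinuousLinearMap.adjoint_inner_right]
    rw [← h2, hu, hv]
  rw [inner_self_eq_norm_sq_to_K, inner_self_eq_norm_sq_to_K] at h1
  have h2 : ‖u v‖ ^ 2 = ‖v‖ ^ 2 := by exact_mod_cast h1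
  exact (sq_eq_sq₀ (norm_nonneg _) (norm_nonneg _)).1 h2

theorem norm_p_le {p : K →L[ℂ] K} (hp : p * p = p) (hs : star p = p) : ‖p‖ ≤ 1 := by
  have h1 : ‖star p * p‖ = ‖p‖ * ‖p‖ := CStarRing.norm_star_mul_self
  rw [hs, hp] at h1
  by_contra hc
  push Not at hc
  nlinarith

theorem norm_u_le {p u : K →L[ℂ] K} (hp : p * p = p) (hs : star p = p) (hu : star u * u = p) :
    ‖u‖ ≤ 1 := by
  have h1 : ‖star u * u‖ = ‖u‖ * ‖u‖ := CStarRing.norm_star_mul_self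
  rw [hu] at h1
  have h2 := norm_p_le hp hs
  by_contra hc
  push Not at hc
  nlinarith [norm_nonneg u]

theorem inner_star (u : K →L[ℂ] K) (a b : K) : ⟪a, u b⟫_ℂ = ⟪(star u) a, b⟫_ℂ := by
  rw [ContinuousLinearMap.star_eq_adjoint, ContinuousLinearMap.adjoint_inner_left]

/-- the element of minimal norm -/
theorem min_elt (S : Set K) (hne : S.Nonempty)
    (hcv : ∀ x ∈ S, ∀ y ∈ S, ∀ a b : ℝ, 0 ≤ a → 0 ≤ b → a + b = 1 → (a : ℂ) • x + (b : ℂ) • y ∈ S) :
    ∃ η ∈ closure S, ∀ w ∈ closure S, ‖η‖ ^ 2 ≤ (⟪η, w⟫_ℂ).re := by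
  letI : InnerProductSpace ℝ K := InnerProductSpace.rclikeToReal ℂ K
  have hScv : Convex ℝ S := by
    intro x hx y hy a b ha hb hab
    exact hcv x hx y hy a b ha hb hab
  obtain ⟨η, hη, hmin⟩ := exists_norm_eq_iInf_of_complete_convex hne.closure
    isClosed_closure.isComplete hScv.closure (0 : K)
  rw [norm_eq_iInf_iff_real_inner_le_zero hScv.closure hη] at hmin
  refine ⟨η, hη, fun w hw => ?_⟩
  have h1 := hmin w hw
  rw [zero_sub, inner_neg_left, inner_sub_right, real_inner_self_eq_norm_sq] at h1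
  have h2 : ⟪η, w⟫_ℝ = (⟪η, w⟫_ℂ).re := rfl
  rw [h2] at h1
  linarith

theorem corner {p : K →L[ℂ] K} (hp : p * p = p) {W : K →L[ℂ] K} (hW : p * W * p = W) :
    p * W = W ∧ W * p = W := by
  constructor
  · calc p * W = p * (p * W * p) := by rw [hW]
      _ = p * p * W * p := by simp only [mul_assoc]
      _ = W := by rw [hp, hW]
  · calc W * p = p * W * p * p := by rw [hW]
      _ = p * W * (p * p) := by simp only [mul_assoc]
      _ = W := by rw [hp, hW]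

theorem ofcorner {p W : K →L[ℂ] K} (h1 : p * W = W) (h2 : W * p = W) : p * W * p = W := by
  rw [h1, h2]

theorem papp {p W : K →L[ℂ] K} (hW : p * W = W) (v : K) : p (W v) = W v := by
  have := congrArg (fun T : K →L[ℂ] K => T v) hW
  simpa using this

/-- the unitaries of the corner -/
def UU (A : VonNeumannAlgebra K) (p : K →L[ℂ] K) : Set (K →L[ℂ] K) :=
  {u | u ∈ A ∧ star u * u = p ∧ u * star u = p}

theorem hmulU {A : VonNeumannAlgebra K} {p : K →L[ℂ] K} (hp : p * p = p) (hs : star p = p)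
    {u v : K →L[ℂ] K} (hu : u ∈ UU A p) (hv : v ∈ UU A p) : u * v ∈ UU A p := by
  obtain ⟨hu1, hu2, hu3⟩ := hu
  obtain ⟨hv1, hv2, hv3⟩ := hv
  refine ⟨mul_mem hu1 hv1, ?_, ?_⟩
  · calc star (u * v) * (u * v) = star v * (star u * u * v) := by
          rw [star_mul]; simp only [mul_assoc]
      _ = p := by rw [hu2, left_p hp hs hv3, hv2]
  · calc u * v * star (u * v) = u * (v * star v) * star u := by
          rw [star_mul]; simp only [mul_assoc]
      _ = p := by rw [hv3, right_p hp hs hu2, hu3]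

theorem star_right {p u : K →L[ℂ] K} (hp : p * p = p) (hs : star p = p) (hu : u * star u = p) :
    star u * p = star u := by
  have := congrArg star (left_p hp hs hu)
  rwa [star_mul, hs] at this

theorem nl {A : VonNeumannAlgebra K} {p u : K →L[ℂ] K} (hu : u ∈ UU A p) {W : K →L[ℂ] K}
    (hW : p * W = W) (v : K) : ‖(u * W) v‖ = ‖W v‖ := by
  rw [mul_apply_eq_comp]
  exact norm_iso hu.2.1 (papp hW v)

theorem nr {A B : VonNeumannAlgebra K} (hAB : ∀ x : K →L[ℂ] K, x ∈ A → x ∈ B)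
    {p : K →L[ℂ] K} (hp : p * p = p) (hs : star p = p) {ζ : K}
    (hnorm : ∀ Z : K →L[ℂ] K, Z ∈ B → p * Z * p = Z → ‖Z ζ‖ = ‖star Z ζ‖)
    {u : K →L[ℂ] K} (hu : u ∈ UU A p) {W : K →L[ℂ] K} (hWB : W ∈ B) (hW : p * W * p = W) :
    ‖(W * star u) ζ‖ = ‖W ζ‖ := by
  obtain ⟨hW1, hW2⟩ := corner hp hW
  have hsW : p * star W = star W := by
    have := congrArg star hW2
    rwa [star_mul, hs] at this
  have huB : star u ∈ B := star_mem (hAB u hu.1)
  have hsu : star u * p = star u := star_right hp hs hu.2.2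
  have h1 : ‖(W * star u) ζ‖ = ‖star (W * star u) ζ‖ := by
    refine hnorm _ (mul_mem hWB huB) (ofcorner ?_ ?_)
    · rw [← mul_assoc, hW1]
    · rw [mul_assoc, hsu]
  rw [h1, star_mul, star_star, nl hu hsW ζ, ← hnorm W hWB hW]

/-- the convex set -/
def C0 (A B : VonNeumannAlgebra K) (p Z : K →L[ℂ] K) (ζ : K) (r : ℝ) : Set (K →L[ℂ] K) :=
  {W | W ∈ B ∧ p * W * p = W ∧ ‖W‖ ≤ ‖Z‖ ∧ ∀ u ∈ UU A p, ‖(Z - u * W * star u) ζ‖ ≤ r}

theorem self_mem {A B : VonNeumannAlgebra K} (hAB : ∀ x : K →L[ℂ] K, x ∈ A → x ∈ B)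
    {p : K →L[ℂ] K} (hp : p * p = p) (hs : star p = p) {ζ : K}
    (hnorm : ∀ Z : K →L[ℂ] K, Z ∈ B → p * Z * p = Z → ‖Z ζ‖ = ‖star Z ζ‖)
    {Z : K →L[ℂ] K} {r : ℝ} (hZB : Z ∈ B) (hZp : p * Z * p = Z)
    (hZr : ∀ u : K →L[ℂ] K, u ∈ A → star u * u = p → u * star u = p → ‖(u * Z - Z * u) ζ‖ ≤ r) :
    Z ∈ C0 A B p Z ζ r := by
  refine ⟨hZB, hZp, le_rfl, fun u hu => ?_⟩
  obtain ⟨hu1, hu2, hu3⟩ := hu
  obtain ⟨hZ1, hZ2⟩ := corner hp hZp
  have huB : u ∈ B := hAB u hu1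
  have hup := right_p hp hs hu2
  have hpu := left_p hp hs hu3
  have e1 : Z - u * Z * star u = (Z * u - u * Z) * star u := by
    rw [sub_mul, mul_assoc Z u, hu3, hZ2]
  have hY : p * (Z * u - u * Z) * p = Z * u - u * Z := by
    refine ofcorner ?_ ?_
    · rw [mul_sub, ← mul_assoc, hZ1, ← mul_assoc, hpu]
    · rw [sub_mul, mul_assoc, hup, mul_assoc, hZ2]
  rw [e1, nr hAB hp hs hnorm ⟨hu1, hu2, hu3⟩ (sub_mem (mul_mem hZB huB) (mul_mem huB hZB)) hY]
  have h2 := hZr u hu1 hu2 hu3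
  have e2 : (Z * u - u * Z) ζ = -((u * Z - Z * u) ζ) := by
    simp
  rw [e2, norm_neg]
  exact h2

theorem hconj {A B : VonNeumannAlgebra K} (hAB : ∀ x : K →L[ℂ] K, x ∈ A → x ∈ B)
    {p : K →L[ℂ] K} (hp : p * p = p) (hs : star p = p) {ζ : K} {Z : K →L[ℂ] K} {r : ℝ}
    {W : K →L[ℂ] K} (hW : W ∈ C0 A B p Z ζ r) {v : K →L[ℂ] K} (hv : v ∈ UU A p) :
    v * W * star v ∈ C0 A B p Z ζ r := by
  obtain ⟨h1, h2, h3, h4⟩ := hW
  obtain ⟨hv1, hv2, hv3⟩ := hv
  have hvB : v ∈ B := hAB v hv1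
  have hpv := left_p hp hs hv3
  have hsv : star v * p = star v := star_right hp hs hv3
  have hnv := norm_u_le hp hs hv2
  refine ⟨mul_mem (mul_mem hvB h1) (star_mem hvB), ofcorner ?_ ?_, ?_, fun u hu => ?_⟩
  · rw [← mul_assoc, ← mul_assoc, hpv]
  · rw [mul_assoc, hsv]
  · calc ‖v * W * star v‖ ≤ ‖v * W‖ * ‖star v‖ := norm_mul_le _ _
      _ ≤ ‖v‖ * ‖W‖ * ‖v‖ := by
        rw [norm_star]
        exact mul_le_mul_of_nonneg_right (norm_mul_le _ _) (norm_nonneg _)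
      _ ≤ 1 * ‖W‖ * 1 := by gcongr
      _ ≤ ‖Z‖ := by linarith
  · have e1 : u * (v * W * star v) * star u = (u * v) * W * star (u * v) := by
      rw [star_mul]
      simp only [mul_assoc]
    rw [e1]
    exact h4 (u * v) (hmulU hp hs hu ⟨hv1, hv2, hv3⟩)

theorem hconv {A B : VonNeumannAlgebra K} {p : K →L[ℂ] K} {ζ : K} {Z : K →L[ℂ] K} {r : ℝ}
    {W1 W2 : K →L[ℂ] K} (hW1 : W1 ∈ C0 A B p Z ζ r) (hW2 : W2 ∈ C0 A B p Z ζ r) {a b : ℝ}
    (ha : 0 ≤ a) (hb : 0 ≤ b) (hab : a + b = 1) :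
    (a : ℂ) • W1 + (b : ℂ) • W2 ∈ C0 A B p Z ζ r := by
  obtain ⟨h1, h2, h3, h4⟩ := hW1
  obtain ⟨k1, k2, k3, k4⟩ := hW2
  refine ⟨?_, ?_, ?_, fun u hu => ?_⟩
  · exact add_mem (B.toStarSubalgebra.toSubalgebra.smul_mem h1 (a : ℂ))
      (B.toStarSubalgebra.toSubalgebra.smul_mem k1 (b : ℂ))
  · rw [mul_add, add_mul, mul_smul_comm, mul_smul_comm, smul_mul_assoc, smul_mul_assoc, h2, k2]
  · calc ‖(a : ℂ) • W1 + (b : ℂ) • W2‖ ≤ ‖(a : ℂ) • W1‖ + ‖(b : ℂ) • W2‖ := norm_add_le _ _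
      _ = a * ‖W1‖ + b * ‖W2‖ := by
        rw [norm_smul, norm_smul, Complex.norm_real, Complex.norm_real,
          Real.norm_of_nonneg ha, Real.norm_of_nonneg hb]
      _ ≤ a * ‖Z‖ + b * ‖Z‖ := by gcongr
      _ = ‖Z‖ := by rw [← add_mul, hab, one_mul]
  · have e1 : Z - u * ((a : ℂ) • W1 + (b : ℂ) • W2) * star u =
        (a : ℂ) • (Z - u * W1 * star u) + (b : ℂ) • (Z - u * W2 * star u) := by
      rw [mul_add, add_mul, mul_smul_comm, mul_smul_comm, smul_mul_assoc, smul_mul_assoc,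
        smul_sub, smul_sub]
      have e2 : Z = (a : ℂ) • Z + (b : ℂ) • Z := by
        rw [← add_smul, ← Complex.ofReal_add, hab, Complex.ofReal_one, one_smul]
      nth_rewrite 1 [e2]
      abel
    rw [e1]
    calc ‖((a : ℂ) • (Z - u * W1 * star u) + (b : ℂ) • (Z - u * W2 * star u)) ζ‖
        = ‖(a : ℂ) • (Z - u * W1 * star u) ζ + (b : ℂ) • (Z - u * W2 * star u) ζ‖ := rfl
      _ ≤ ‖(a : ℂ) • (Z - u * W1 * star u) ζ‖ + ‖(b : ℂ) • (Z - u * W2 * star u) ζ‖ :=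
        norm_add_le _ _
      _ = a * ‖(Z - u * W1 * star u) ζ‖ + b * ‖(Z - u * W2 * star u) ζ‖ := by
        rw [norm_smul, norm_smul, Complex.norm_real, Complex.norm_real,
          Real.norm_of_nonneg ha, Real.norm_of_nonneg hb]
      _ ≤ a * r + b * r := by
        gcongr
        · exact h4 u hu
        · exact k4 u hu
      _ = r := by rw [← add_mul, hab, one_mul]

end corner

theorem d2 : S_D2 := by
  intro K _ _ _ A B hAB p hpA hp hs ζ hζ hnorm hsep Z r hZB hZp hZr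
  have hpB : p ∈ B := hAB p hpA
  have hpU : p ∈ UU A p := ⟨hpA, by rw [hs, hp], by rw [hs, hp]⟩
  have hZC : Z ∈ C0 A B p Z ζ r := self_mem hAB hp hs hnorm hZB hZp hZr
  obtain ⟨η, hη, hmin'⟩ := min_elt ((fun W : K →L[ℂ] K => W ζ) '' C0 A B p Z ζ r)
    ⟨Z ζ, ⟨Z, hZC, rfl⟩⟩ (by
      rintro _ ⟨W1, hW1, rfl⟩ _ ⟨W2, hW2, rfl⟩ a b ha hb hab
      exact ⟨(a : ℂ) • W1 + (b : ℂ) • W2, hconv hW1 hW2 ha hb hab, rfl⟩)
  obtain ⟨x, hxS, hx⟩ := mem_closure_iff_seq_limit.1 hη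
  choose W hWC hWx using hxS
  have hWx' : ∀ n, W n ζ = x n := hWx
  have hGle : ((hyperfilter ℕ : Ultrafilter ℕ) : Filter ℕ) ≤ atTop := Nat.hyperfilter_le_atTop
  obtain ⟨Z0, _, hlim⟩ := wlim (hyperfilter ℕ) ‖Z‖ W (fun n => (hWC n).2.2.1)
  have hZ0B : Z0 ∈ B := wlim_mem (hyperfilter ℕ) B W (fun n => (hWC n).1) Z0 hlim
  have hZ0p : p * Z0 * p = Z0 := by
    ext b
    refine ext_inner_left ℂ fun a => ?_
    have h1 : Tendsto (fun n => ⟪star p a, W n (p b)⟫_ℂ) (hyperfilter ℕ)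
        (𝓝 ⟪star p a, Z0 (p b)⟫_ℂ) := hlim _ _
    have h2 := hlim a b
    have h3 : ∀ n, ⟪star p a, W n (p b)⟫_ℂ = ⟪a, W n b⟫_ℂ := by
      intro n
      rw [← inner_star]
      have := congrArg (fun T : K →L[ℂ] K => T b) (hWC n).2.1
      simp only [mul_apply_eq_comp] at this
      rw [this]
    simp only [h3] at h1
    have h4 := tendsto_nhds_unique h1 h2
    rw [← inner_star] at h4
    exact h4
  have hZ0η : Z0 ζ = η := by
    refine ext_inner_left ℂ fun a => ?_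
    have h1 := hlim a ζ
    simp only [hWx'] at h1
    have h2 : Tendsto (fun n => ⟪a, x n⟫_ℂ) (hyperfilter ℕ) (𝓝 ⟪a, η⟫_ℂ) :=
      (tendsto_const_nhds.inner hx).mono_left hGle
    exact tendsto_nhds_unique h1 h2
  refine ⟨Z0, hZ0B, hZ0p, ?_, ?_⟩
  · have h1 : ∀ n, ‖Z ζ - x n‖ ≤ r := by
      intro n
      have h2 := (hWC n).2.2.2 p hpU
      rw [hs, (hWC n).2.1] at h2
      rw [← hWx' n]
      exact h2
    have h2 : Tendsto (fun n => ‖Z ζ - x n‖) atTop (𝓝 ‖Z ζ - η‖) :=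
      (tendsto_const_nhds.sub hx).norm
    have h3 := le_of_tendsto' h2 h1
    have h4 : (Z - Z0) ζ = Z ζ - η := by
      rw [← hZ0η]
      rfl
    rw [h4]
    exact h3
  · intro u hu1 hu2 hu3
    have huU : u ∈ UU A p := ⟨hu1, hu2, hu3⟩
    have huB : u ∈ B := hAB u hu1
    obtain ⟨hZ01, hZ02⟩ := corner hp hZ0p
    have hpu := left_p hp hs hu3
    have hsu : star u * p = star u := star_right hp hs hu3
    -- the norm
    have hn : ‖(u * Z0 * star u) ζ‖ = ‖η‖ := by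
      have h1 : ‖(u * Z0 * star u) ζ‖ = ‖(Z0 * star u) ζ‖ := by
        rw [mul_assoc]
        exact nl huU (by rw [← mul_assoc, hZ01]) ζ
      rw [h1, nr hAB hp hs hnorm huU hZ0B hZ0p, hZ0η]
    -- the inner product
    have hin : ‖η‖ ^ 2 ≤ (⟪η, (u * Z0 * star u) ζ⟫_ℂ).re := by
      have h1 : Tendsto (fun n => ⟪star u η, W n (star u ζ)⟫_ℂ) (hyperfilter ℕ)
          (𝓝 ⟪star u η, Z0 (star u ζ)⟫_ℂ) := hlim _ _
      have h2 : Tendsto (fun n => (⟪star u η, W n (star u ζ)⟫_ℂ).re) (hyperfilter ℕ)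
          (𝓝 (⟪star u η, Z0 (star u ζ)⟫_ℂ).re) :=
        (Complex.continuous_re.tendsto _).comp h1
      have h3 : ∀ n, ‖η‖ ^ 2 ≤ (⟪star u η, W n (star u ζ)⟫_ℂ).re := by
        intro n
        rw [← inner_star]
        exact hmin' _ (subset_closure ⟨u * W n * star u, hconj hAB hp hs (hWC n) huU, rfl⟩)
      have h4 := ge_of_tendsto' h2 h3
      rw [← inner_star] at h4
      exact h4
    have heq : (u * Z0 * star u) ζ = η := by
      have h1 : ‖η - (u * Z0 * star u) ζ‖ ^ 2 ≤ 0 := by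
        have h2 := @norm_sub_sq ℂ K _ _ _ η ((u * Z0 * star u) ζ)
        rw [h2, hn]
        have h3 : RCLike.re ⟪η, (u * Z0 * star u) ζ⟫_ℂ = (⟪η, (u * Z0 * star u) ζ⟫_ℂ).re := rfl
        rw [h3]
        linarith
      have h4 : ‖η - (u * Z0 * star u) ζ‖ = 0 := by
        have := norm_nonneg (η - (u * Z0 * star u) ζ)
        nlinarith
      exact (sub_eq_zero.1 (norm_eq_zero.1 h4)).symm
    have hzero : u * Z0 * star u - Z0 = 0 := by
      refine hsep _ (sub_mem (mul_mem (mul_mem huB hZ0B) (star_mem huB)) hZ0B) ?_ ?_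
      · refine ofcorner ?_ ?_
        · rw [mul_sub, ← mul_assoc, ← mul_assoc, hpu, hZ01]
        · rw [sub_mul, mul_assoc, hsu, hZ02]
      · have h6 : (u * Z0 * star u - Z0) ζ = (u * Z0 * star u) ζ - Z0 ζ := rfl
        rw [h6, heq, hZ0η, sub_self]
    have h5 : u * Z0 * star u = Z0 := sub_eq_zero.1 hzero
    calc u * Z0 = u * (Z0 * p) := by rw [hZ02]
      _ = u * Z0 * star u * u := by
        rw [← hu2]
        simp only [mul_assoc]
      _ = Z0 * u := by rw [h5]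

end Pool.Agent.W917.CB.D2
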